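import Mathlib
import Pool.Agent.Helper18.UW.GoalsA
import Pool.Agent.Helper43.Gm.D
import Pool.Agent.Helper43.Gm.E
import Pool.Agent.Helper43.Gm.C

set_option autoImplicit false

namespace Pool.Agent.Helper40.UW

open Finset
open Pool.Agent.Lead.Sh
open Pool.Agent.Helper43.Gm (Run st mv nn SS cl)
open Pool.Agent.Helper43.Gm.PkD (od nn_eq SS_eq od_succ od_le od_congr x_zero mono_le od_new
  od_still od_full fill extend T_moved T_still choice od_zero)
open Pool.Agent.Helper43.Gm.PkE (KK ek ex ek_ge run_ext run_restrict nn_ext lt_KK sum_eq_SS)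

variable {κ x ν ℓ : ℕ → ℕ} {y M m : ℕ}

/-- fill with full points -/
theorem fillBad2 (h1 : ∀ c, 1 ≤ ν c) : ∀ need k : ℕ, (∀ c, k ≤ c → ν c ≤ m) → ∃ K, k ≤ K ∧
    need ≤ ∑ c ∈ Ico k K, ν c ∧ (∑ c ∈ Ico k K, ν c ≤ need + (m - 1)) ∧
    (need = 0 → K = k) := by
  intro need
  induction need using Nat.strong_induction_on with
  | _ need ih =>
    intro k hM
    rcases Nat.eq_zero_or_pos need with h0 | h0
    · subst h0
      exact ⟨k, le_rfl, by simp, by simp, fun _ => rfl⟩
    · rcases Nat.lt_or_ge (ν k) need with h | h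
      · obtain ⟨K, hK, ha, hb, _⟩ := ih (need - ν k) (by have := h1 k; omega) (k + 1)
          (fun c hc => hM c (by omega))
        refine ⟨K, by omega, ?_, ?_, fun h => by omega⟩
        · rw [sum_eq_sum_Ico_succ_bot (by omega : k < K)]
          omega
        · rw [sum_eq_sum_Ico_succ_bot (by omega : k < K)]
          omega
      · refine ⟨k + 1, by omega, ?_, ?_, fun h => by omega⟩
        · rw [Nat.Ico_succ_singleton, sum_singleton]; exact h
        · rw [Nat.Ico_succ_singleton, sum_singleton]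
          have := hM k le_rfl
          omega

/-- the sum over the old points drops by their number -/
theorem drop2 (hM : ∀ c < κ y, od κ x ν c y ≤ m) :
    ∃ o, ∑ c ∈ range (κ y), od κ x ν c (y + 1) + o ≤
      ∑ c ∈ range (κ y), od κ x ν c y ∧ ∑ c ∈ range (κ y), od κ x ν c y ≤ m * o := by
  refine ⟨((range (κ y)).filter (fun c => 0 < od κ x ν c y)).card, ?_, ?_⟩
  · rw [card_filter, ← sum_add_distrib]
    apply sum_le_sum
    intro c hc
    rw [mem_range] at hc
    have := od_succ (x := x) (ν := ν) hc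
    split_ifs with h <;> omega
  · rw [card_filter, mul_sum]
    apply sum_le_sum
    intro c hc
    rw [mem_range] at hc
    have h2 := hM c hc
    split_ifs with h <;> omega

/-- the choice for the next row, all the points which matter are at most `m` -/
theorem choice2 (hR : Run M (y + 1) ν κ x) (hm : ∀ c, κ y ≤ c → ν c ≤ m)
    (hod : ∀ c < κ y, od κ x ν c y ≤ m) (l0 l1 : ℕ) (bad : Prop)
    (hlo : l0 ≤ SS κ x ν y) (hhi : SS κ x ν y ≤ l0 + m) (hex : 0 < x y → SS κ x ν y = l0)
    (hd : l0 ≤ l1 + 1) (hg : ¬ bad → 2 * m + 1 ≤ l0) :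
    ∃ K X, κ y ≤ K ∧ X ≤ ν K ∧ (0 < x y → K = κ y → x y < X) ∧
      l1 ≤ ∑ c ∈ range K, od κ x ν c (y + 1) + X ∧
      ∑ c ∈ range K, od κ x ν c (y + 1) + X ≤ l1 + m ∧
      (0 < X → ∑ c ∈ range K, od κ x ν c (y + 1) + X = l1) ∧
      (bad → X = 0) ∧
      (¬ bad → ∑ c ∈ range K, od κ x ν c (y + 1) + X ≤ l1 + (SS κ x ν y - l0 - 1)) := by
  have h1M : 1 ≤ m := le_trans (hR.ν1 (κ y)) (hm _ le_rfl)
  obtain ⟨o, ho1, ho2⟩ := drop2 (κ := κ) (x := x) (y := y) hod
  have hSS := SS_eq κ x ν y
  have hxle := hR.le y (by omega)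
  have hν1 := hR.ν1 (κ y)
  have hνM := hm (κ y) le_rfl
  set A := ∑ c ∈ range (κ y), od κ x ν c (y + 1) with hA
  set B := ∑ c ∈ range (κ y), od κ x ν c y with hB
  have ho0 : o = 0 → B = 0 := by rintro rfl; omega
  have ho1' : B ≠ 0 → 1 ≤ o := by
    intro h; by_contra hcon; exact h (ho0 (by omega))
  have ho2' : m + 1 ≤ B → 2 ≤ o := by
    intro h
    by_contra hcon
    have : m * o ≤ m * 1 := Nat.mul_le_mul_left _ (by omega)
    omega
  by_cases hb : bad
  · -- a bad row
    rcases Nat.eq_zero_or_pos (x y) with hx | hx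
    · obtain ⟨K, hK, ha, hb', hc⟩ := fillBad2 hR.ν1 (l1 - A) (κ y) hm
      have hT := T_still hR hx hK
      rw [← hA] at hT
      refine ⟨K, 0, hK, Nat.zero_le _, by omega, by omega, ?_, by omega, fun _ => rfl,
        fun h => absurd hb h⟩
      rcases Nat.eq_zero_or_pos (l1 - A) with h | h
      · rw [hT, hc h, Ico_self, sum_empty]
        omega
      · omega
    · obtain ⟨K, hK, ha, hb', hc⟩ := fillBad2 hR.ν1
        (l1 - (A + od κ x ν (κ y) (y + 1))) (κ y + 1) (fun c hc => hm c (by omega))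
      have hT := T_moved hR hK
      rw [← hA] at hT
      have hv : od κ x ν (κ y) (y + 1) ≤ ν (κ y) := od_le
      have := hex hx
      refine ⟨K, 0, by omega, Nat.zero_le _, by omega, by omega, ?_, by omega, fun _ => rfl,
        fun h => absurd hb h⟩
      rcases Nat.eq_zero_or_pos (l1 - (A + od κ x ν (κ y) (y + 1))) with h | h
      · rw [hT, hc h, Ico_self, sum_empty]
        omega
      · omega
  · have hg' := hg hb
    rcases Nat.eq_zero_or_pos (x y) with hx | hx
    · rcases Nat.lt_or_ge A l1 with hAl | hAl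
      · obtain ⟨K, X, hK, hX, hs, hpos⟩ := fill hR.ν1 (l1 - A) (κ y)
        have hT := T_still hR hx hK
        rw [← hA] at hT
        refine ⟨K, X, hK, hX, by omega, by omega, by omega, by omega, fun h => absurd h hb,
          by omega⟩
      · have hT := T_still hR hx (K := κ y) le_rfl
        rw [← hA, Ico_self, sum_empty] at hT
        have ho : 1 ≤ o := ho1' (by omega)
        have ho3 : 2 ≤ o := ho2' (by omega)
        refine ⟨κ y, 0, le_rfl, Nat.zero_le _, by omega, by omega, by omega, by omega,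
          fun _ => rfl, ?_⟩
        intro _
        omega
    · have hE := hex hx
      have hv : od κ x ν (κ y) (y + 1) ≤ ν (κ y) := od_le
      have hneed : A + x y ≤ l1 ∧ (A + x y = l1 → x y = ν (κ y)) := by
        have := ho2' (by omega)
        omega
      by_cases hcase : A + x y < l1 ∧ l1 ≤ A + ν (κ y)
      · refine ⟨κ y, l1 - A, le_rfl, by omega, by omega, ?_, ?_, ?_, fun h => absurd h hb, ?_⟩ <;>
        omega
      · have hge : A + od κ x ν (κ y) (y + 1) ≤ l1 := by
          by_cases h : A + x y = l1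
          · have := hneed.2 h; omega
          · omega
        obtain ⟨K, X, hK, hX, hs, hpos⟩ := fill hR.ν1 (l1 - (A + od κ x ν (κ y) (y + 1))) (κ y + 1)
        have hT := T_moved hR hK
        rw [← hA] at hT
        refine ⟨K, X, by omega, hX, by omega, by omega, by omega, by omega,
          fun h => absurd h hb, by omega⟩

/-- a point gives at most all its conditions -/
theorem part_le {J : ℕ} (h : Run M J ν κ x) (hJ : 1 ≤ J) {c : ℕ} (hc : c < KK κ x J) :
    ∑ z ∈ range J, nn κ x ν c z ≤ (ν c + 1).choose 2 := by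
  have hE := run_ext h hJ (J + M)
  have htot := Pool.Agent.Helper43.Gm.PkC.goalC M (J + M) ν _ _ hE c J
    (by have := h.ν1 0; have := h.νM 0; omega) (by rw [ek_ge le_rfl]; exact hc) le_rfl
  rw [← htot, sum_range_add]
  refine le_trans (le_of_eq ?_) (Nat.le_add_right _ _)
  apply sum_congr rfl
  intro z hz
  rw [mem_range] at hz
  exact (nn_ext hz).symm

/-- the points before `c0` are old -/
theorem old_of_area {J c0 : ℕ} (h : Run M J ν κ x) (hJ : 1 ≤ J)
    (hS : ∀ z < J, SS κ x ν z = ℓ z)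
    (hs : ∑ c ∈ range c0, (ν c + 1).choose 2 < ∑ z ∈ range J, ℓ z) : c0 ≤ κ (J - 1) := by
  by_contra hcon
  push Not at hcon
  have hK : KK κ x J ≤ c0 := by
    unfold KK
    split_ifs <;> omega
  have h1 : ∑ z ∈ range J, ℓ z = ∑ c ∈ range (KK κ x J), ∑ z ∈ range J, nn κ x ν c z := by
    rw [sum_comm]
    apply sum_congr rfl
    intro z hz
    rw [mem_range] at hz
    rw [sum_eq_SS _ (fun c hc => lt_KK h hz hc)]
    exact (hS z hz).symm
  have h2 : ∑ c ∈ range (KK κ x J), ∑ z ∈ range J, nn κ x ν c z ≤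
      ∑ c ∈ range (KK κ x J), (ν c + 1).choose 2 :=
    sum_le_sum (fun c hc => part_le h hJ (mem_range.1 hc))
  have h3 : ∑ c ∈ range (KK κ x J), (ν c + 1).choose 2 ≤ ∑ c ∈ range c0, (ν c + 1).choose 2 :=
    sum_le_sum_of_subset (range_mono hK)
  omega

/-- an old point gives at most `ν c - t` after `t` rows -/
theorem od_after {R z c : ℕ} (h : Run M R ν κ x) (hc : c < κ z) : ∀ t, z + t < R →
    od κ x ν c (z + t) ≤ ν c - t ∧ κ z ≤ κ (z + t) := by
  intro t
  induction t with
  | zero => intro _; exact ⟨od_le, le_rfl⟩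
  | succ t ih =>
    intro ht
    obtain ⟨h1, h2⟩ := ih (by omega)
    have h3 := od_succ (x := x) (ν := ν) (show c < κ (z + t) by omega)
    have h4 := h.mono (z + t) (by omega)
    rw [show z + (t + 1) = z + t + 1 by omega]
    exact ⟨by omega, by omega⟩

/-- the whole game -/
theorem game2 (M m0 J c0 : ℕ) (ν ℓ : ℕ → ℕ) (Bd : Finset ℕ) (h1 : ∀ c, 1 ≤ ν c)
    (hM : ∀ c, ν c ≤ M) (hm : ∀ c, c0 ≤ c → ν c ≤ m0) (hJ : M + 1 ≤ J)
    (hB0 : ∀ z ∈ Bd, J ≤ z)
    (hs : ∑ c ∈ range c0, (ν c + 1).choose 2 < ∑ y ∈ range (J - M), ℓ y) :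
    ∀ y, (∀ z, z + 1 < y + 1 → ℓ z ≤ ℓ (z + 1) + 1) →
    (∀ z, z + 1 < y + 1 → z + 1 < J → 2 * M + 1 ≤ ℓ z) →
    (∀ z, J ≤ z + 1 → z + 1 < y + 1 → z + 1 ∉ Bd → 2 * m0 + 1 ≤ ℓ z) →
    ∃ κ x : ℕ → ℕ, Run M (y + 1) ν κ x ∧
      (∀ z ≤ y, ℓ z ≤ SS κ x ν z ∧ SS κ x ν z ≤ ℓ z + m0) ∧
      (∀ z ≤ y, z ∈ Bd → x z = 0) ∧ (0 < x y → SS κ x ν y = ℓ y) ∧
      (∀ z ≤ y, z < J → SS κ x ν z = ℓ z) ∧
      2 * ∑ z ∈ range (y + 1), (SS κ x ν z - ℓ z) +
          (if y ∈ Bd then 0 else (SS κ x ν y - ℓ y) * (SS κ x ν y - ℓ y - 1)) ≤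
        2 * m0 * (Bd.filter (· ≤ y)).card + m0 * (m0 - 1) * cl (y + 1) Bd := by
  intro y
  induction y with
  | zero =>
    intro _ _ _
    obtain ⟨K, X, hK, hX, hs, hpos⟩ := fill h1 (ℓ 0) 0
    have hSS : SS (fun _ => K) (fun _ => X) ν 0 = ℓ 0 := by
      rw [SS_eq, sum_congr rfl (fun c _ => od_zero), range_eq_Ico]
      exact hs
    have hB0' : 0 ∉ Bd := fun h => by have := hB0 0 h; omega
    refine ⟨fun _ => K, fun _ => X, ⟨h1, hM, fun _ _ => le_rfl, fun _ _ => hX,
      fun _ h => absurd h (by omega)⟩, ?_, ?_, fun _ => hSS, ?_, ?_⟩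
    · intro z hz
      rw [show z = 0 by omega, hSS]
      omega
    · intro z hz hz'
      rw [show z = 0 by omega] at hz'
      exact absurd hz' hB0'
    · intro z hz _
      rw [show z = 0 by omega, hSS]
    · rw [zero_add, sum_range_one, hSS, Nat.sub_self, if_neg hB0']
      simp
  | succ y ih =>
    intro hd hg1 hg2
    obtain ⟨κ, x, hR, hlh, hbd, hex, hJS, hpot⟩ := ih (fun z hz => hd z (by omega))
      (fun z hz => hg1 z (by omega)) (fun z hz hz' => hg2 z hz (by omega))
    obtain ⟨K, X, hK, hX, hinc, hlo, hhi, hex', hbad, hgood, hfst⟩ :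
        ∃ K X, κ y ≤ K ∧ X ≤ ν K ∧ (0 < x y → K = κ y → x y < X) ∧
        ℓ (y + 1) ≤ ∑ c ∈ range K, od κ x ν c (y + 1) + X ∧
        ∑ c ∈ range K, od κ x ν c (y + 1) + X ≤ ℓ (y + 1) + m0 ∧
        (0 < X → ∑ c ∈ range K, od κ x ν c (y + 1) + X = ℓ (y + 1)) ∧
        (y + 1 ∈ Bd → X = 0) ∧
        (y + 1 ∉ Bd → ∑ c ∈ range K, od κ x ν c (y + 1) + X ≤
          ℓ (y + 1) + (SS κ x ν y - ℓ y - 1)) ∧
        (y + 1 < J → ∑ c ∈ range K, od κ x ν c (y + 1) + X = ℓ (y + 1)) := by
      rcases Nat.lt_or_ge (y + 1) J with hyJ | hyJ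
      · have hy0 := hJS y le_rfl (by omega)
        obtain ⟨K, X, hK, hX, hinc, hlo, hhi, hex', hbad, hgood⟩ := choice hR (ℓ y) (ℓ (y + 1))
          False (hlh y le_rfl).1 (by omega) hex (hd y (by omega))
          (fun _ => Or.inr (hg1 y (by omega) hyJ))
        have := hgood not_false
        refine ⟨K, X, hK, hX, hinc, hlo, by omega, hex', fun h => ?_, fun _ => by omega,
          fun _ => by omega⟩
        have := hB0 _ h
        omega
      · have hold : c0 ≤ κ (J - M - 1) :=
          old_of_area (ℓ := ℓ) (run_restrict hR (by omega : J - M ≤ y + 1)) (by omega)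
            (fun z hz => hJS z (by omega) (by omega)) hs
        have hy := fun c => od_after (z := J - M - 1) (c := c) hR
        have hmon : κ (J - M - 1) ≤ κ y := mono_le hR (y - (J - M - 1)) _ (by omega)
        have hod : ∀ c < κ y, od κ x ν c y ≤ m0 := by
          intro c _
          rcases Nat.lt_or_ge c c0 with h | h
          · have h2 := (hy c (by omega) (y - (J - M - 1)) (by omega)).1
            rw [show J - M - 1 + (y - (J - M - 1)) = y by omega] at h2
            have := hM c
            omega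
          · exact od_le.trans (hm c h)
        obtain ⟨K, X, hK, hX, hinc, hlo, hhi, hex', hbad, hgood⟩ := choice2 hR
          (fun c hc => hm c (by omega)) hod (ℓ y) (ℓ (y + 1))
          (y + 1 ∈ Bd) (hlh y le_rfl).1 (hlh y le_rfl).2 hex (hd y (by omega))
          (hg2 y hyJ (by omega))
        exact ⟨K, X, hK, hX, hinc, hlo, hhi, hex', hbad, hgood, fun h => absurd h (by omega)⟩
    obtain ⟨κ', x', hR', e1, e2, e3, e4, e5, e6⟩ := extend hR hK hX hinc
    rw [← e6] at hlo hhi hex' hgood hfst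
    refine ⟨κ', x', hR', ?_, ?_, ?_, ?_, ?_⟩
    · intro z hz
      rcases Nat.lt_or_ge y z with h | h
      · rw [show z = y + 1 by omega]; exact ⟨hlo, hhi⟩
      · rw [e5 z h]; exact hlh z h
    · intro z hz hz'
      rcases Nat.lt_or_ge y z with h | h
      · rw [show z = y + 1 by omega] at hz' ⊢
        rw [e4]; exact hbad hz'
      · rw [e2 z h]; exact hbd z h hz'
    · rw [e4]; exact hex'
    · intro z hz hz'
      rcases Nat.lt_or_ge y z with h | h
      · rw [show z = y + 1 by omega]; exact hfst (by omega)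
      · rw [e5 z h]; exact hJS z h hz'
    · rw [sum_range_succ, sum_congr rfl (fun z hz => by
        rw [e5 z (by rw [mem_range] at hz; omega)])]
      have hcard : (Bd.filter (· ≤ y + 1)).card =
          (Bd.filter (· ≤ y)).card + (if y + 1 ∈ Bd then 1 else 0) := by
        have : Bd.filter (· ≤ y + 1) = Bd.filter (· ≤ y) ∪ Bd.filter (· = y + 1) := by
          rw [← filter_or]
          apply filter_congr
          intro z _
          omega
        rw [this, card_union_of_disjoint]
        · congr 1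
          split_ifs with h
          · rw [filter_eq', if_pos h, card_singleton]
          · rw [filter_eq', if_neg h, card_empty]
        · rw [disjoint_filter]
          intro z _ h1 h2
          omega
      have hcl : cl (y + 2) Bd = cl (y + 1) Bd + (if y ∈ Bd ∧ y + 1 ∉ Bd then 1 else 0) := by
        unfold cl
        have : Bd.filter (fun z => z + 1 < y + 2 ∧ z + 1 ∉ Bd) =
            Bd.filter (fun z => z + 1 < y + 1 ∧ z + 1 ∉ Bd) ∪
              Bd.filter (fun z => z = y ∧ z + 1 ∉ Bd) := by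
          rw [← filter_or]
          apply filter_congr
          intro z _
          constructor
          · rintro ⟨h1, h2⟩
            by_cases h : z = y
            · exact Or.inr ⟨h, h2⟩
            · exact Or.inl ⟨by omega, h2⟩
          · rintro (⟨h1, h2⟩ | ⟨h1, h2⟩)
            · exact ⟨by omega, h2⟩
            · exact ⟨by omega, h2⟩
        rw [this, card_union_of_disjoint]
        · congr 1
          split_ifs with h
          · rw [card_eq_one]
            refine ⟨y, ?_⟩
            ext z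
            rw [mem_filter, mem_singleton]
            constructor
            · exact fun h => h.2.1
            · rintro rfl; exact ⟨h.1, rfl, h.2⟩
          · rw [card_eq_zero, filter_eq_empty_iff]
            rintro z hz ⟨h1, h2⟩
            subst h1
            exact h ⟨hz, h2⟩
        · rw [disjoint_filter]
          intro z _ h1 h2
          omega
      rw [show y + 1 + 1 = y + 2 by omega, hcard, hcl]
      set E := SS κ x ν y - ℓ y with hE
      set E' := SS κ' x' ν (y + 1) - ℓ (y + 1) with hE'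
      have hEM : E ≤ m0 := by have := (hlh y le_rfl).2; omega
      have hEM' : E' ≤ m0 := by omega
      set Q := ∑ z ∈ range (y + 1), (SS κ x ν z - ℓ z) with hQ
      by_cases hb1 : y + 1 ∈ Bd
      · rw [if_pos hb1, if_pos hb1, if_neg (by tauto)]
        have : 0 ≤ (if y ∈ Bd then 0 else E * (E - 1)) := Nat.zero_le _
        have h3 : 2 * m0 * ((Bd.filter (· ≤ y)).card + 1) = 2 * m0 * (Bd.filter (· ≤ y)).card +
          2 * m0 := by ring
        simp only [add_zero]
        rw [h3]
        omega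
      · have hE1 : E' ≤ E - 1 := by have := hgood hb1; omega
        rw [if_neg hb1, if_neg hb1]
        have h4 : 2 * E' + E' * (E' - 1) ≤ E * (E - 1) := by
          rcases Nat.eq_zero_or_pos E' with h | h
          · rw [h]; simp
          · obtain ⟨a, ha⟩ : ∃ a, E' = a + 1 := ⟨E' - 1, by omega⟩
            obtain ⟨b, hb⟩ : ∃ b, E = a + 2 + b := ⟨E - (a + 2), by omega⟩
            rw [ha, hb, show a + 1 - 1 = a by omega, show a + 2 + b - 1 = a + 1 + b by omega]
            nlinarith
        by_cases hb0 : y ∈ Bd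
        · rw [if_pos hb0] at hpot
          rw [if_pos ⟨hb0, hb1⟩]
          have h5 : E * (E - 1) ≤ m0 * (m0 - 1) := Nat.mul_le_mul hEM (by omega)
          have h6 : m0 * (m0 - 1) * (cl (y + 1) Bd + 1) = m0 * (m0 - 1) * cl (y + 1) Bd +
            m0 * (m0 - 1) := by ring
          simp only [add_zero]
          rw [h6]
          omega
        · rw [if_neg hb0] at hpot
          rw [if_neg (by tauto)]
          simp only [add_zero]
          omega

theorem goalD2 : Pool.Agent.Helper18.UW.GoalD2 := by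
  intro M m0 R J c0 ν ℓ Bd _ _ h1 hM hm hJ hJR hB0 hd hg1 hg2 hs
  obtain ⟨y, rfl⟩ : ∃ y, R = y + 1 := ⟨R - 1, by omega⟩
  obtain ⟨κ, x, hR', hlh, hbd, -, -, hpot⟩ := game2 M m0 J c0 ν ℓ Bd h1 hM hm hJ hB0 hs y hd
    (fun z _ hz => hg1 z hz) (fun z hz hz' => hg2 z hz hz')
  refine ⟨κ, x, hR', fun z hz => hlh z (by omega), fun z hz => hbd z (by omega), ?_⟩
  have h2 : (Bd.filter (· ≤ y)).card ≤ Bd.card := card_filter_le _ _
  have h3 : 2 * m0 * (Bd.filter (· ≤ y)).card ≤ 2 * m0 * Bd.card := Nat.mul_le_mul_left _ h2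
  omega

end Pool.Agent.Helper40.UW
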