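import Mathlib
import Pool.Agent.Helper18.UW.GoalsR

set_option autoImplicit false

namespace Pool.Agent.Helper40.UW.V1

open Finset
open Pool.Agent.Lead.Sh
open Pool.Agent.Helper43.Hw (T na va lz Play aa ac sc oo sk U Dd Sd Pn nx bb np)
open Pool.Agent.Helper43.Gm (Pri st mv nn)
open Pool.Agent.Helper18.EW
open Pool.Agent.Helper18.UW

variable {m κ x : ℕ → ℕ} {μ δ R N N1 g τ : ℕ}

theorem sc_mono {c c' : ℕ} (h : c ≤ c') : sc R κ c ≤ sc R κ c' := by
  unfold sc
  apply card_le_card
  intro y hy
  rw [mem_filter] at hy ⊢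
  exact ⟨hy.1, hy.2.trans h⟩

/-- the facts used -/
structure Ft (m : ℕ → ℕ) (R : ℕ) (κ x : ℕ → ℕ) : Prop where
  a : ∀ c, ∀ y < R, (κ y ≤ c ↔ y < sc R κ c)
  b : ∀ c, ∀ y < R, (aa κ x y ≤ c ↔ y < ac R κ x c)
  c : ∀ c, ∀ t < R, (κ t = c ∧ 0 < x t) ↔ (ac R κ x c ≤ t ∧ t < sc R κ c)
  d : ∀ c, ac R κ x c ≤ sc R κ c

theorem Ft.ac_ge (h : Ft m R κ x) {c c' : ℕ} (hc : c < c') : sc R κ c ≤ ac R κ x c' := by
  rcases Nat.lt_or_ge (ac R κ x c') R with h1 | h1
  · have h2 : ¬ (aa κ x (ac R κ x c') ≤ c') := by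
      rw [h.b c' _ h1]; omega
    have h3 : ¬ (κ (ac R κ x c') ≤ c) := by
      unfold aa at h2
      split_ifs at h2 <;> omega
    rw [h.a c _ h1] at h3
    omega
  · have : sc R κ c ≤ R := by
      unfold sc
      exact (card_filter_le _ _).trans (by rw [card_range])
    omega

theorem sc_le (hV : Vh m μ δ R N N1 g τ κ x) (hF : Ft m R κ x) {c : ℕ} (hc : c < g) :
    sc R κ c ≤ τ := by
  have h1 := hV.tJ
  have h2 := hF.a c τ (by omega)
  rw [hV.kg] at h2
  by_contra hcon
  have := h2.2 (by omega)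
  omega

theorem vk_le : ∀ y, vk m μ R N1 g κ y ≤ g - N1 := by
  intro y
  unfold vk
  exact (card_filter_le _ _).trans (by rw [Nat.card_Ico])

/-- the virtually old points are an initial segment -/
theorem vk_iff (hV : Vh m μ δ R N N1 g τ κ x) {y c : ℕ} (h1 : N1 ≤ c) (h2 : c < g) :
    sc R κ c + m c ≤ y + μ ↔ c < N1 + vk m μ R N1 g κ y := by
  have hgN := hV.gN
  have hmono : ∀ c c', N1 ≤ c → c ≤ c' → c' < g → sc R κ c' + m c' ≤ y + μ →
      sc R κ c + m c ≤ y + μ := by
    intro c c' h1 h2 h3 h4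
    have h5 := sc_mono (R := R) (κ := κ) h2
    have h6 := hV.mono c c' h1 h2 (by omega)
    omega
  constructor
  · intro h
    have : Ico N1 (c + 1) ⊆ (Ico N1 g).filter (fun c => sc R κ c + m c ≤ y + μ) := by
      intro a ha
      rw [mem_Ico] at ha
      rw [mem_filter, mem_Ico]
      exact ⟨⟨ha.1, by omega⟩, hmono a c ha.1 (by omega) h2 h⟩
    have h3 := card_le_card this
    rw [Nat.card_Ico] at h3
    unfold vk
    omega
  · intro h
    by_contra hcon
    have : (Ico N1 g).filter (fun c => sc R κ c + m c ≤ y + μ) ⊆ Ico N1 c := by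
      intro a ha
      rw [mem_filter, mem_Ico] at ha
      rw [mem_Ico]
      refine ⟨ha.1.1, ?_⟩
      by_contra hcon2
      exact hcon (hmono c a h1 (by omega) ha.1.2 ha.2)
    have h3 := card_le_card this
    rw [Nat.card_Ico] at h3
    unfold vk at h
    omega

theorem vk_after (hV : Vh m μ δ R N N1 g τ κ x) (hF : Ft m R κ x) {y : ℕ} (hy : τ ≤ y) :
    vk m μ R N1 g κ y = g - N1 := by
  apply le_antisymm (vk_le y)
  by_contra hcon
  push Not at hcon
  have h1 : ¬ (N1 + vk m μ R N1 g κ y < N1 + vk m μ R N1 g κ y) := lt_irrefl _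
  rw [← vk_iff hV (by omega) (by omega)] at h1
  have h2 := sc_le hV hF (show N1 + vk m μ R N1 g κ y < g by omega)
  have h3 := hV.main (N1 + vk m μ R N1 g κ y) (by omega) (by have := hV.gN; omega)
  omega

theorem vx_eq {y c : ℕ} (hc : N1 + vk m μ R N1 g κ y = c) (h : c < g) :
    vx m μ R N1 g κ x y = if κ (y + μ - m c) = c then x (y + μ - m c) else 0 := by
  unfold vx
  rw [if_pos (by omega), hc]

theorem vx_ge {y : ℕ} (h : g ≤ N1 + vk m μ R N1 g κ y) :
    vx m μ R N1 g κ x y = na μ R y := by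
  unfold vx
  rw [if_neg (by omega)]

/-- the moving rows of the virtual point -/
theorem mov_iff (hV : Vh m μ δ R N N1 g τ κ x) (hF : Ft m R κ x) {y c : ℕ} (h1 : N1 ≤ c)
    (h2 : c < g) (hy : y + μ < R + m c) :
    (vk m μ R N1 g κ y = c - N1 ∧ 0 < vx m μ R N1 g κ x y) ↔
      (ac R κ x c ≤ y + μ - m c ∧ y + μ - m c < sc R κ c) := by
  have hgN := hV.gN
  have hm := hV.main c h1 (by omega)
  constructor
  · rintro ⟨h3, h4⟩
    rw [vx_eq (c := c) (by omega) h2] at h4
    split_ifs at h4 with h5
    · exact (hF.c c _ (by omega)).1 ⟨h5, h4⟩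
    · omega
  · intro h
    have h3 := (hF.c c _ (by omega)).2 h
    have h4 : ¬ (sc R κ c + m c ≤ y + μ) := by omega
    rw [vk_iff hV h1 h2] at h4
    have h5 : c ≤ N1 + vk m μ R N1 g κ y := by
      rcases Nat.eq_or_lt_of_le h1 with h6 | h6
      · omega
      · have h7 : sc R κ (c - 1) + m (c - 1) ≤ y + μ := by
          have h8 := hF.ac_ge (show c - 1 < c by omega)
          have h9 := hV.mono (c - 1) c (by omega) (by omega) (by omega)
          omega
        rw [vk_iff hV (by omega) (by omega)] at h7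
        omega
    refine ⟨by omega, ?_⟩
    rw [vx_eq (c := c) (by omega) h2, if_pos h3.1]
    exact h3.2

theorem play (hV : Vh m μ δ R N N1 g τ κ x) (hF : Ft m R κ x) :
    Play μ R (N - N1) (vk m μ R N1 g κ) (vx m μ R N1 g κ x) := by
  have hgN := hV.gN
  have hNg := hV.N1g
  have hμ := hV.μ1
  have hτ := hV.tJ
  have hτ1 := hV.t1
  -- the row `t`
  have ht : ∀ y, N1 + vk m μ R N1 g κ y < g →
      y + μ - m (N1 + vk m μ R N1 g κ y) < sc R κ (N1 + vk m μ R N1 g κ y) ∧
      y + μ - m (N1 + vk m μ R N1 g κ y) < τ ∧ y < τ := by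
    intro y h
    have h1 : ¬ (N1 + vk m μ R N1 g κ y < N1 + vk m μ R N1 g κ y) := lt_irrefl _
    rw [← vk_iff hV (by omega) h] at h1
    have h2 := sc_le hV hF h
    have h3 := hV.main (N1 + vk m μ R N1 g κ y) (by omega) (by omega)
    omega
  refine ⟨?_, ?_, ?_, ?_, ?_, ?_, ?_, ?_⟩
  · intro y _
    unfold vk
    apply card_le_card
    intro c hc
    rw [mem_filter] at hc ⊢
    exact ⟨hc.1, by omega⟩
  · intro y _
    have := vk_le (m := m) (μ := μ) (R := R) (N1 := N1) (g := g) (κ := κ) y
    omega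
  · intro y hy
    rcases Nat.lt_or_ge (N1 + vk m μ R N1 g κ y) g with h | h
    · rw [vx_eq rfl h]
      obtain ⟨h1, h2, h3⟩ := ht y h
      split_ifs with h4
      · have h5 := hV.play.lt _ (show y + μ - m (N1 + vk m μ R N1 g κ y) + 1 < R by omega)
          (by omega)
        rw [h4] at h5
        have h6 := hV.main (N1 + vk m μ R N1 g κ y) (by omega) (by omega)
        omega
      · omega
    · rw [vx_ge h]
      unfold na
      omega
  · intro y hy _
    rcases Nat.lt_or_ge (N1 + vk m μ R N1 g κ y) g with h | h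
    · obtain ⟨h1, h2, h3⟩ := ht y h
      have : na μ R y = 0 := by unfold na; omega
      omega
    · rw [vx_ge h]
  · intro y _ h
    have := vk_le (m := m) (μ := μ) (R := R) (N1 := N1) (g := g) (κ := κ) y
    omega
  · intro y hy h0 he
    rcases Nat.lt_or_ge (N1 + vk m μ R N1 g κ y) g with h | h
    · obtain ⟨h1, h2, h3⟩ := ht y h
      obtain ⟨h1', h2', h3'⟩ := ht (y + 1) (by omega)
      have h6 := hV.main (N1 + vk m μ R N1 g κ y) (by omega) (by omega)
      obtain ⟨h4, h5⟩ := (mov_iff hV hF (y := y) (by omega) h (by omega)).1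
        ⟨by omega, h0⟩
      rw [vx_eq rfl h, vx_eq rfl (by omega), he]
      rw [he] at h1'
      obtain ⟨c, hc⟩ : ∃ c, c = N1 + vk m μ R N1 g κ y := ⟨_, rfl⟩
      rw [← hc] at h1 h2 h4 h5 h6 h1' ⊢
      rw [show y + 1 + μ - m c = y + μ - m c + 1 by omega] at h1' ⊢
      have h7 := (hF.c c (y + μ - m c) (by omega)).2 ⟨h4, h5⟩
      have h8 := (hF.c c (y + μ - m c + 1) (by omega)).2 ⟨by omega, h1'⟩
      rw [if_pos h7.1, if_pos h8.1]
      exact hV.play.inc _ (by omega) h7.2 (by omega)
    · rw [vx_ge h] at h0 ⊢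
      rw [vx_ge (by omega)]
      unfold na at h0 ⊢
      omega
  · rw [vk_after hV hF (by omega), vk_after hV hF (by omega)]
  · intro _
    rw [vx_ge (by rw [vk_after hV hF (by omega)]; omega)]
    unfold na
    omega

theorem card_lt {b : ℕ} (hb : b ≤ R) (P : ℕ → Prop) [DecidablePred P]
    (hP : ∀ y < R, P y ↔ y < b) : ((range R).filter P).card = b := by
  have : (range R).filter P = range b := by
    ext y
    rw [mem_filter, mem_range, mem_range]
    constructor
    · rintro ⟨h1, h2⟩; exact (hP y h1).1 h2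
    · intro h; exact ⟨by omega, (hP y (by omega)).2 h⟩
  rw [this, card_range]

theorem scV (hV : Vh m μ δ R N N1 g τ κ x) (hF : Ft m R κ x) {c : ℕ} (h1 : N1 ≤ c)
    (h2 : c < g) : sc R (vk m μ R N1 g κ) (c - N1) + μ = sc R κ c + m c := by
  have h3 := sc_le hV hF h2
  have h4 := hV.main c h1 (by have := hV.gN; omega)
  have h5 := hV.late c h1 h2
  have h6 := hF.d c
  have h7 := hV.tJ
  have : sc R (vk m μ R N1 g κ) (c - N1) = sc R κ c + m c - μ := by
    unfold sc
    apply card_lt
    · change sc R κ c + m c - μ ≤ R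
      omega
    · intro y hy
      have h8 := vk_iff hV (y := y) h1 h2
      change _ ↔ y < sc R κ c + m c - μ
      constructor
      · intro h
        by_contra hcon
        have := h8.1 (by omega)
        omega
      · intro h
        by_contra hcon
        have := h8.2 (by omega)
        omega
  omega

theorem acV (hV : Vh m μ δ R N N1 g τ κ x) (hF : Ft m R κ x) {c : ℕ} (h1 : N1 ≤ c)
    (h2 : c < g) : ac R (vk m μ R N1 g κ) (vx m μ R N1 g κ x) (c - N1) + μ =
      ac R κ x c + m c := by
  have h3 := sc_le hV hF h2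
  have h4 := hV.main c h1 (by have := hV.gN; omega)
  have h5 := hV.late c h1 h2
  have h6 := hF.d c
  have h7 := hV.tJ
  have : ac R (vk m μ R N1 g κ) (vx m μ R N1 g κ x) (c - N1) = ac R κ x c + m c - μ := by
    unfold ac
    apply card_lt
    · change ac R κ x c + m c - μ ≤ R
      omega
    · intro y hy
      have h8 := vk_iff hV (y := y) h1 h2
      change _ ↔ y < ac R κ x c + m c - μ
      have h10 : aa (vk m μ R N1 g κ) (vx m μ R N1 g κ x) y ≤ c - N1 ↔
          (vk m μ R N1 g κ y ≤ c - N1 ∧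
            ¬ (vk m μ R N1 g κ y = c - N1 ∧ 0 < vx m μ R N1 g κ x y)) := by
        unfold aa
        split_ifs with h11
        · omega
        · constructor
          · intro h; exact ⟨by omega, fun h' => h11 h'.2⟩
          · intro h; omega
      rw [h10]
      rcases Nat.lt_or_ge (y + μ) (R + m c) with h9 | h9
      · rw [mov_iff hV hF h1 h2 h9]
        constructor
        · rintro ⟨h, h'⟩
          by_contra hcon
          apply h'
          have : ¬ (sc R κ c + m c ≤ y + μ) := by
            rw [h8]; omega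
          omega
        · intro h
          refine ⟨?_, by omega⟩
          by_contra hcon
          have := h8.2 (by omega)
          omega
      · constructor
        · rintro ⟨h, _⟩
          have : ¬ (sc R κ c + m c ≤ y + μ) := by
            rw [h8]; omega
          omega
        · intro h; omega
  omega

theorem vaV (hV : Vh m μ δ R N N1 g τ κ x) (hF : Ft m R κ x) {c : ℕ} (h1 : N1 ≤ c)
    (h2 : c < g) {z : ℕ} (hz : τ ≤ z) (hzR : z < R) :
    va μ R (vk m μ R N1 g κ) (vx m μ R N1 g κ x) (c - N1) z = va (m c) R κ x c z := by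
  have h3 := sc_le hV hF h2
  have h4 := hV.main c h1 (by have := hV.gN; omega)
  have h5 := hV.late c h1 h2
  have h6 := hF.d c
  have h7 := hV.tJ
  have h8 := scV hV hF h1 h2
  have h9 := (hV.pa z hz hzR).1
  have h10 := vk_after hV hF hz
  unfold va nn
  rw [if_neg (by omega), if_neg (by omega), if_neg (by omega), if_neg (by omega),
    if_neg (by omega), if_neg (by omega)]
  have hst : st κ c z = sc R κ c := by
    unfold st
    apply card_lt
    · omega
    · intro y hy
      exact hF.a c y (by omega)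
  have hst' : st (vk m μ R N1 g κ) (c - N1) z = sc R κ c + m c - μ := by
    unfold st
    apply card_lt
    · omega
    · intro y hy
      have h8 := vk_iff hV (y := y) h1 h2
      change _ ↔ y < sc R κ c + m c - μ
      constructor
      · intro h
        by_contra hcon
        have := h8.1 (by omega)
        omega
      · intro h
        by_contra hcon
        have := h8.2 (by omega)
        omega
  have hmv : (mv (vk m μ R N1 g κ) (vx m μ R N1 g κ x) (fun _ => μ) (c - N1) z).card =
      (mv κ x (fun _ => m c) c z).card := by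
    unfold mv
    apply card_nbij' (fun y => y + μ - m c) (fun t => t + m c - μ)
    · intro y hy
      rw [mem_coe, mem_filter, mem_range] at hy
      rw [mem_coe, mem_filter, mem_range]
      dsimp only at hy ⊢
      obtain ⟨hy1, hy2, hy3, hy4⟩ := hy
      have h11 : ¬ (sc R κ c + m c ≤ y + μ) := by
        rw [vk_iff hV h1 h2]; omega
      have h12 := (mov_iff hV hF h1 h2 (by omega)).1 ⟨hy2, hy3⟩
      have h13 := (hF.c c _ (by omega)).2 h12
      rw [vx_eq (c := c) (by omega) h2, if_pos h13.1] at hy4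
      refine ⟨by omega, h13.1, h13.2, by omega⟩
    · intro t ht
      rw [mem_coe, mem_filter, mem_range] at ht
      rw [mem_coe, mem_filter, mem_range]
      dsimp only at ht ⊢
      obtain ⟨ht1, ht2, ht3, ht4⟩ := ht
      have h12 := (hF.c c t (by omega)).1 ⟨ht2, ht3⟩
      have h14 : t + m c - μ + μ - m c = t := by omega
      have h13 := (mov_iff hV hF (y := t + m c - μ) h1 h2 (by omega)).2 (by rw [h14]; exact h12)
      refine ⟨by omega, h13.1, h13.2, ?_⟩
      rw [vx_eq (c := c) (by omega) h2, h14, if_pos ht2]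
      omega
    · intro y hy
      rw [mem_coe, mem_filter, mem_range] at hy
      dsimp only
      omega
    · intro t ht
      rw [mem_coe, mem_filter, mem_range] at ht
      obtain ⟨ht1, ht2, ht3, ht4⟩ := ht
      have h12 := (hF.c c t (by omega)).1 ⟨ht2, ht3⟩
      dsimp only
      omega
  rw [hst, hst', hmv]
  dsimp only
  omega

theorem goalV1 (hU : GoalU1) : GoalV1 := by
  intro m μ δ R N N1 g τ κ x hV
  have h1 := hV.tJ
  have h2 := hV.t1
  have h3 := hV.μ1
  obtain ⟨u1, u2, u3, -⟩ := hU m R N κ x hV.m1 (by omega) hV.play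
  have hF : Ft m R κ x := ⟨fun c y hy => (u1 c y hy).1, fun c y hy => (u1 c y hy).2, u2, u3⟩
  refine ⟨play hV hF, ?_, ?_⟩
  · intro y hy _
    have h4 := vk_after hV hF hy
    exact ⟨h4, vx_ge (by have := hV.N1g; omega)⟩
  · intro c hc hcg
    exact ⟨scV hV hF hc hcg, acV hV hF hc hcg, fun z hz hz' => vaV hV hF hc hcg hz hz'⟩

end Pool.Agent.Helper40.UW.V1
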